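import Pool.Agent.R904.CU.KDefs

/-!
# Bass's conjecture and the hypersurfaces `∑ yₖ gₖ = 1`
-/

set_option autoImplicit false

open CategoryTheory CategoryTheory.Limits AlgebraicGeometry MvPolynomial

namespace Pool.Agent.R904.CU

theorem noeth_iff (A : Type) [AddCommGroup A] : AddGroup.FG A ↔ IsNoetherian ℤ A := by
  rw [← Module.Finite.iff_addGroup_fg]
  exact ⟨fun h => isNoetherian_of_isNoetherianRing_of_finite ℤ A, fun h => inferInstance⟩

theorem fg_exact {A B C : Type} [AddCommGroup A] [AddCommGroup B] [AddCommGroup C] (a : A →+ B)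
    (b : B →+ C) (h : Function.Exact a b) (hA : AddGroup.FG A) (hC : AddGroup.FG C) :
    AddGroup.FG B := by
  rw [noeth_iff] at *
  refine isNoetherian_of_range_eq_ker a.toIntLinearMap b.toIntLinearMap ?_
  ext y
  rw [LinearMap.mem_range, LinearMap.mem_ker]
  exact ((h y).symm)

theorem fg_equiv {A B : Type} [AddCommGroup A] [AddCommGroup B] (e : Nonempty (A ≃+ B))
    (hA : AddGroup.FG A) : AddGroup.FG B := by
  obtain ⟨e⟩ := e
  exact AddGroup.fg_of_surjective (f := e.toAddMonoidHom) e.surjective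

theorem isAffineBundle_space (σ : Type) [Fintype σ] : IsAffineBundle (Fintype.card σ)
    (Spec.map (CommRingCat.ofHom (algebraMap ℤ (MvPolynomial σ ℤ)))) := by
  intro x
  refine ⟨.of ℤ, 𝟙 _, σ, inferInstance, 𝟙 _, rfl, inferInstance, ⟨x, rfl⟩, ?_⟩
  exact IsPullback.of_horiz_isIso ⟨by rw [Category.comp_id, Category.id_comp]; rfl⟩

theorem finType_space (σ : Type) [Fintype σ] : FinType ℤ (Spec (.of (MvPolynomial σ ℤ)))
    (Spec.map (CommRingCat.ofHom (algebraMap ℤ (MvPolynomial σ ℤ)))) :=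
  (cls_finType ℤ).affine _ inferInstance

theorem finType_quadHyp {σ κ : Type} [Fintype σ] [Fintype κ] (g : κ → MvPolynomial σ ℤ) :
    FinType ℤ (quadHyp g) (hyp (bigPoly g)) :=
  (cls_finType ℤ).affine _ inferInstance

theorem finType_id : FinType ℤ (Spec (.of ℤ)) (𝟙 _) := ⟨inferInstance, inferInstance⟩

instance : LocallyOfFiniteType gm := by
  refine HasRingHomProperty.Spec_iff.mpr
    (show (CommRingCat.ofHom (algebraMap ℤ (LaurentPolynomial ℤ))).hom.FiniteType from ?_)
  rw [CommRingCat.hom_ofHom, RingHom.finiteType_algebraMap]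
  exact AddMonoidAlgebra.finiteType_of_fg ℤ ℤ

instance : QuasiCompact gm := by
  unfold gm
  infer_instance

theorem finType_gm (X : Scheme.{0}) (f : X ⟶ Spec (.of ℤ)) (hf : FinType ℤ X f) :
    FinType ℤ (pullback f gm) (pullback.fst f gm ≫ f) := by
  obtain ⟨h1, h2⟩ := hf
  exact ⟨inferInstance, inferInstance⟩

namespace KPrime

variable (K : KPrime)

theorem fg_space (n : ℕ) (σ : Type) [Fintype σ] :
    AddGroup.FG (K.G n (Spec (.of (MvPolynomial σ ℤ)))) := by
  refine fg_equiv (K.bundle n _ _ _ _ (𝟙 _) finType_id ?_ (isAffineBundle_space σ)) (K.integers n)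
  rw [Category.comp_id]
  exact finType_space σ

theorem shift (n : ℕ) : Shift (FinType ℤ) (fun X _ => AddGroup.FG (K.G n X))
    (fun X _ => AddGroup.FG (K.G (n + 1) X)) where
  empty Z f hZ := by
    have h := K.empty n Z hZ
    exact AddGroup.fg_of_finite
  isoP f g e _ h := fg_equiv (K.iso n _ _ e.symm) h
  isoQ f g e _ h := fg_equiv (K.iso (n + 1) _ _ e.symm) h
  glue X Z U f i j hf hi hj hr hZ hU := by
    obtain ⟨a, b, d, h1, h2, h3, -⟩ := K.localization X Z U f i j hf hi hj hr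
    exact fg_exact (a n) (b n) (h1 n) hZ hU
  sub X Z U f i j hf hi hj hr hX hU := by
    obtain ⟨a, b, d, h1, h2, h3, -⟩ := K.localization X Z U f i j hf hi hj hr
    exact fg_exact (d n) (a n) (h3 n) hU hX
  desc N E X π f hX hE hπ h := by
    obtain ⟨e⟩ := K.bundle (n + 1) N E X π f hX hE hπ
    exact fg_equiv ⟨e.symm⟩ h
  space σ _ := K.fg_space n σ

theorem allFG_of_cubicFG (n : ℕ) (h : K.CubicFG (n + 1)) : K.AllFG n :=
  fun X f hf => s_all (cls_finType ℤ) (K.shift n) (fun σ κ _ _ g hg => h σ κ g hg) X f hf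

/-- the group of the hypersurface is the group of the complement of `V(g)` -/
theorem equiv_open (n : ℕ) {σ κ : Type} [Fintype σ] [Fintype κ] (g : κ → MvPolynomial σ ℤ) :
    Nonempty (K.G n (openU g) ≃+ K.G n (quadHyp g)) := by
  obtain ⟨e1⟩ := K.iso n _ _ (hypIso g)
  obtain ⟨e2⟩ := K.bundle n _ _ _ (proj g)
    ((openU g).ι ≫ Spec.map (CommRingCat.ofHom (algebraMap ℤ (MvPolynomial σ ℤ))))
    (cl_openU (cls_finType ℤ) g) (cl_bundle (cls_finType ℤ) g) (isAffineBundle_proj g)
  exact ⟨e2.trans e1⟩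

theorem cubicFG_of_allFG (n : ℕ) (h : K.AllFG n) : K.CubicFG (n + 1) := by
  intro σ κ _ _ g _
  refine fg_equiv (K.equiv_open (n + 1) g) ?_
  obtain ⟨a, b, d, h1, h2, h3, -⟩ := K.localization _ _ _ _ (closedZ g) (openU g).ι
    (finType_space σ) inferInstance inferInstance (range_closedZ g)
  refine fg_exact (b (n + 1)) (d n) (h2 n) (K.fg_space (n + 1) σ) ?_
  exact h _ (closedZ g ≫ Spec.map (CommRingCat.ofHom (algebraMap ℤ (MvPolynomial σ ℤ))))
    ((cls_finType ℤ).closed _ _ _ (closedZ g) inferInstance (finType_space σ))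

theorem cubicFG_zero : K.CubicFG 0 := by
  intro σ κ _ _ g _
  refine fg_equiv (K.equiv_open 0 g) ?_
  obtain ⟨a, b, d, h1, h2, h3, h4⟩ := K.localization _ _ _ _ (closedZ g) (openU g).ι
    (finType_space σ) inferInstance inferInstance (range_closedZ g)
  have := K.fg_space 0 σ
  exact AddGroup.fg_of_surjective h4

theorem allFG_down (n : ℕ) (h : K.AllFG (n + 1)) : K.AllFG n := by
  intro X f hf
  obtain ⟨e⟩ := K.fundamental n X f hf
  have h1 := h _ _ (finType_gm X f hf)
  exact AddGroup.fg_of_surjective (f := (AddMonoidHom.snd (K.G (n + 1) X) (K.G n X)).comp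
    e.toAddMonoidHom) (fun y => ⟨e.symm (0, y), by simp⟩)

theorem allFG_mono {m n : ℕ} (hmn : m ≤ n) (h : K.AllFG n) : K.AllFG m := by
  obtain ⟨d, rfl⟩ := Nat.exists_eq_add_of_le hmn
  clear hmn
  induction d with
  | zero => exact h
  | succ d ih => exact ih (K.allFG_down _ h)

theorem bass_iff : K.Bass ↔ ∀ m : ℕ, ∃ n : ℕ, m ≤ n ∧ K.CubicFG n := by
  constructor
  · intro h m
    refine ⟨m, le_rfl, fun σ κ _ _ g _ => ?_⟩
    exact h _ (hyp (bigPoly g)) (finType_quadHyp g) (isRegularScheme_hyp g) m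
  · intro h X f hf _ m
    obtain ⟨n, hn, hc⟩ := h (m + 1)
    obtain ⟨d, rfl⟩ := Nat.exists_eq_add_of_le hn
    have h1 : K.AllFG (m + d) := K.allFG_of_cubicFG _ (by
      have : m + 1 + d = m + d + 1 := by omega
      rwa [this] at hc)
    exact K.allFG_mono (Nat.le_add_right m d) h1 X f hf

end KPrime

end Pool.Agent.R904.CU
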