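import Mathlib

/-!
# Affine bundles and the hypersurface `∑ yₖ gₖ = 1`
-/

set_option autoImplicit false

open CategoryTheory CategoryTheory.Limits AlgebraicGeometry MvPolynomial

namespace Pool.Agent.R904.CU

/-- `π : E ⟶ X` is Zariski locally the product with the affine space of dimension `n`: `X` is covered
by affine open subschemes `Spec B` over which `E` becomes `Spec B[y_t : t ∈ τ]`, with `n` variables. -/
def IsAffineBundle (n : ℕ) {E X : Scheme.{0}} (π : E ⟶ X) : Prop :=
  ∀ x : X, ∃ (B : CommRingCat.{0}) (u : Spec B ⟶ X) (τ : Type) (_ : Fintype τ)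
    (v : Spec (CommRingCat.of (MvPolynomial τ B)) ⟶ E),
    Fintype.card τ = n ∧ IsOpenImmersion u ∧ x ∈ Set.range u ∧
      IsPullback v (Spec.map (CommRingCat.ofHom (C : B →+* MvPolynomial τ B))) π u

section

variable {A : Type} [CommRing A] {κ : Type} [Fintype κ]

/-- the polynomial `∑ yₖ gₖ - 1` -/
noncomputable def poly (g : κ → A) : MvPolynomial κ A := ∑ k, X k * C (g k) - 1

/-- its ring -/
abbrev Ring1 (g : κ → A) : Type := MvPolynomial κ A ⧸ Ideal.span {poly g}

theorem rel1 (g : κ → A) :
    ∑ k, Ideal.Quotient.mk (Ideal.span {poly g}) (X k) * algebraMap A (Ring1 g) (g k) = 1 := by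
  have h : Ideal.Quotient.mk (Ideal.span {poly g}) (poly g) = 0 :=
    Ideal.Quotient.eq_zero_iff_mem.2 (Ideal.subset_span rfl)
  have h2 : Ideal.Quotient.mk (Ideal.span {poly g}) (∑ k, X k * C (g k)) = 1 := by
    have h3 : (∑ k, X k * C (g k) : MvPolynomial κ A) = poly g + 1 := by
      unfold poly
      ring
    rw [h3, map_add, h, map_one, zero_add]
  refine Eq.trans ?_ h2
  rw [map_sum]
  refine Finset.sum_congr rfl fun k _ => ?_
  rw [map_mul]
  rfl

variable [DecidableEq κ] (g : κ → A) (k : κ)

/-- the localization -/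
abbrev Loc (k : κ) : Type := Localization.Away (g k)

/-- the map of the variables -/
noncomputable def vars : κ → MvPolynomial {j : κ // j ≠ k} (Loc g k) := fun j =>
  if h : j = k then
    C (IsLocalization.Away.invSelf (S := Loc g k) (g k)) *
      (1 - ∑ i : {j : κ // j ≠ k}, X i * C (algebraMap A (Loc g k) (g i.1)))
  else X ⟨j, h⟩

theorem vars_rel : ∑ j, vars g k j * C (algebraMap A (Loc g k) (g j)) = 1 := by
  rw [← Finset.add_sum_erase Finset.univ _ (Finset.mem_univ k)]
  have h1 : vars g k k * C (algebraMap A (Loc g k) (g k)) =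
      1 - ∑ i : {j : κ // j ≠ k}, X i * C (algebraMap A (Loc g k) (g i.1)) := by
    have h2 : (C (IsLocalization.Away.invSelf (S := Loc g k) (g k)) *
        C (algebraMap A (Loc g k) (g k)) : MvPolynomial {j : κ // j ≠ k} (Loc g k)) = 1 := by
      rw [← C_mul, mul_comm, IsLocalization.Away.mul_invSelf, C_1]
    unfold vars
    rw [dif_pos rfl, mul_comm (C _) (1 - _), mul_assoc, h2, mul_one]
  have h3 : ∑ j ∈ Finset.univ.erase k, vars g k j * C (algebraMap A (Loc g k) (g j)) =
      ∑ i : {j : κ // j ≠ k}, X i * C (algebraMap A (Loc g k) (g i.1)) := by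
    have h4 : ∀ i : {j : κ // j ≠ k}, (X i * C (algebraMap A (Loc g k) (g i.1)) :
        MvPolynomial {j : κ // j ≠ k} (Loc g k)) =
        vars g k i.1 * C (algebraMap A (Loc g k) (g i.1)) := by
      intro i
      unfold vars
      rw [dif_neg i.2]
    rw [Finset.sum_congr rfl fun i _ => h4 i]
    symm
    exact Finset.sum_subtype (Finset.univ.erase k) (by simp)
      (fun j => vars g k j * C (algebraMap A (Loc g k) (g j))) |>.symm
  rw [h1, h3, sub_add_cancel]

/-- the map to the trivial bundle -/
noncomputable def inl : Ring1 g →+* MvPolynomial {j : κ // j ≠ k} (Loc g k) :=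
  Ideal.Quotient.lift _ (eval₂Hom ((C : Loc g k →+* _).comp (algebraMap A (Loc g k))) (vars g k)) (by
    intro a ha
    have h : Ideal.span {poly g} ≤ RingHom.ker
        (eval₂Hom ((C : Loc g k →+* _).comp (algebraMap A (Loc g k))) (vars g k)) := by
      rw [Ideal.span_le, Set.singleton_subset_iff]
      change eval₂Hom _ _ (poly g) = 0
      unfold poly
      rw [map_sub, map_one, map_sum, sub_eq_zero]
      refine Eq.trans (Finset.sum_congr rfl fun j _ => ?_) (vars_rel g k)
      rw [map_mul, eval₂Hom_X', eval₂Hom_C]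
      rfl
    exact h ha)

theorem inl_X (j : κ) : inl g k (Ideal.Quotient.mk _ (X j)) = vars g k j := by
  have h : inl g k (Ideal.Quotient.mk _ (X j)) =
    eval₂Hom ((C : Loc g k →+* _).comp (algebraMap A (Loc g k))) (vars g k) (X j) := rfl
  rw [h, eval₂Hom_X']

theorem inl_algebraMap (a : A) : inl g k (algebraMap A (Ring1 g) a) =
    C (algebraMap A (Loc g k) a) := by
  have h : inl g k (algebraMap A (Ring1 g) a) =
    eval₂Hom ((C : Loc g k →+* _).comp (algebraMap A (Loc g k))) (vars g k) (C a) := rfl
  rw [h, eval₂Hom_C]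
  rfl

section

variable {T : Type} [CommRing T] (a : Ring1 g →+* T) (b : Loc g k →+* T)

/-- the induced map -/
noncomputable def desc : MvPolynomial {j : κ // j ≠ k} (Loc g k) →+* T :=
  eval₂Hom b fun j => a (Ideal.Quotient.mk _ (X j.1))

theorem desc_inl (hab : a.comp (algebraMap A (Ring1 g)) = b.comp (algebraMap A (Loc g k))) :
    (desc g k a b).comp (inl g k) = a := by
  have hab' : ∀ x, a (algebraMap A (Ring1 g) x) = b (algebraMap A (Loc g k) x) := fun x =>
    congrArg (fun f : A →+* T => f x) hab
  apply Ideal.Quotient.ringHom_ext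
  apply MvPolynomial.ringHom_ext
  · intro x
    change desc g k a b (inl g k (algebraMap A (Ring1 g) x)) = a (algebraMap A (Ring1 g) x)
    rw [inl_algebraMap, hab']
    unfold desc
    rw [eval₂Hom_C]
  · intro j
    change desc g k a b (inl g k (Ideal.Quotient.mk _ (X j))) = a (Ideal.Quotient.mk _ (X j))
    rw [inl_X]
    unfold vars
    split_ifs with h
    · subst h
      unfold desc
      rw [map_mul, eval₂Hom_C, map_sub, map_one, map_sum]
      have h1 : b (IsLocalization.Away.invSelf (S := Loc g j) (g j)) *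
          b (algebraMap A (Loc g j) (g j)) = 1 := by
        rw [← map_mul, mul_comm, IsLocalization.Away.mul_invSelf, map_one]
      have h2 : (1 : T) - ∑ i : {i : κ // i ≠ j},
          (eval₂Hom b fun j => a (Ideal.Quotient.mk _ (X j.1)))
            (X i * C (algebraMap A (Loc g j) (g i.1))) =
          a (Ideal.Quotient.mk _ (X j)) * b (algebraMap A (Loc g j) (g j)) := by
        have h3 := congrArg a (rel1 g)
        rw [map_one, map_sum, ← Finset.add_sum_erase Finset.univ _ (Finset.mem_univ j), map_mul,
          hab'] at h3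
        rw [← h3, add_sub_assoc]
        have h4 : ∑ x ∈ Finset.univ.erase j,
            a ((Ideal.Quotient.mk (Ideal.span {poly g})) (X x) * (algebraMap A (Ring1 g)) (g x)) =
            ∑ i : {i : κ // i ≠ j}, (eval₂Hom b fun j => a (Ideal.Quotient.mk _ (X j.1)))
              (X i * C (algebraMap A (Loc g j) (g i.1))) := by
          have h5 : ∀ i : {i : κ // i ≠ j}, (eval₂Hom b fun j => a (Ideal.Quotient.mk _ (X j.1)))
              (X i * C (algebraMap A (Loc g j) (g i.1))) =
              a ((Ideal.Quotient.mk (Ideal.span {poly g})) (X i.1) *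
                (algebraMap A (Ring1 g)) (g i.1)) := by
            intro i
            rw [map_mul, map_mul, eval₂Hom_X', eval₂Hom_C, hab']
          rw [Finset.sum_congr rfl fun i _ => h5 i]
          exact Finset.sum_subtype (Finset.univ.erase j) (by simp) _
        rw [h4, sub_self, add_zero]
      rw [h2, mul_comm, mul_assoc, mul_comm (b _) (b _), h1, mul_one]
    · unfold desc
      rw [eval₂Hom_X']

theorem desc_inr : (desc g k a b).comp C = b := by
  ext x
  unfold desc
  rw [RingHom.comp_apply, eval₂Hom_C]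

theorem desc_uniq (m : MvPolynomial {j : κ // j ≠ k} (Loc g k) →+* T)
    (h1 : m.comp (inl g k) = a) (h2 : m.comp C = b) : m = desc g k a b := by
  apply MvPolynomial.ringHom_ext
  · intro x
    unfold desc
    rw [eval₂Hom_C, ← h2]
    rfl
  · intro j
    unfold desc
    rw [eval₂Hom_X', ← h1, RingHom.comp_apply, inl_X]
    unfold vars
    rw [dif_neg j.2]

end

theorem isPushout : IsPushout (CommRingCat.ofHom (algebraMap A (Ring1 g)))
    (CommRingCat.ofHom (algebraMap A (Loc g k))) (CommRingCat.ofHom (inl g k))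
    (CommRingCat.ofHom (C : Loc g k →+* MvPolynomial {j : κ // j ≠ k} (Loc g k))) := by
  refine ⟨⟨?_⟩, ⟨PushoutCocone.IsColimit.mk _ (fun s => CommRingCat.ofHom
    (desc g k s.inl.hom s.inr.hom)) ?_ ?_ ?_⟩⟩
  · exact CommRingCat.hom_ext (RingHom.ext fun x => inl_algebraMap g k x)
  · intro s
    have h : s.inl.hom.comp (algebraMap A (Ring1 g)) = s.inr.hom.comp (algebraMap A (Loc g k)) :=
      congrArg CommRingCat.Hom.hom s.condition
    ext1
    exact desc_inl g k s.inl.hom s.inr.hom h
  · intro s
    ext1
    exact desc_inr g k s.inl.hom s.inr.hom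
  · intro s m h1 h2
    ext1
    exact desc_uniq g k s.inl.hom s.inr.hom m.hom (congrArg CommRingCat.Hom.hom h1)
      (congrArg CommRingCat.Hom.hom h2)

end

end Pool.Agent.R904.CU
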