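import Pool.Agent.R904.CU.Bundle

/-!
# Properties of schemes of finite type and smooth cubic hypersurfaces
-/

set_option autoImplicit false

open CategoryTheory AlgebraicGeometry MvPolynomial

namespace Pool.Agent.R904.CU

/-- the properties of schemes over `R` -/
abbrev SchProp (R : Type) [CommRing R] : Type 1 := ∀ X : Scheme.{0}, (X ⟶ Spec (.of R)) → Prop

/-- schemes of finite type over `R` -/
def FinType (R : Type) [CommRing R] : SchProp R := fun _ f =>
  LocallyOfFiniteType f ∧ QuasiCompact f

/-- separated schemes of finite type over `R` -/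
def SepFinType (R : Type) [CommRing R] : SchProp R := fun _ f =>
  LocallyOfFiniteType f ∧ QuasiCompact f ∧ IsSeparated f

/-- For every closed subscheme `Z` of a scheme `X` of the class `Cl` and its open complement `U`: if
two of `X, Z, U` have the property `P`, so has the third. -/
def TwoOfThree {R : Type} [CommRing R] (Cl P : SchProp R) : Prop :=
  ∀ (X Z U : Scheme.{0}) (f : X ⟶ Spec (.of R)) (i : Z ⟶ X) (j : U ⟶ X), Cl X f →
    IsClosedImmersion i → IsOpenImmersion j → Set.range i = (Set.range j)ᶜ →
    (P Z (i ≫ f) → P X f → P U (j ≫ f)) ∧ (P Z (i ≫ f) → P U (j ≫ f) → P X f) ∧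
      (P X f → P U (j ≫ f) → P Z (i ≫ f))

/-- For all `n` and all affine bundles `E → X` of dimension `n`, with `E` and `X` in the class `Cl`:
`E` has the property `P` if and only if `X` has it. -/
def BundleInvariant {R : Type} [CommRing R] (Cl P : SchProp R) : Prop :=
  ∀ (n : ℕ) (E X : Scheme.{0}) (π : E ⟶ X) (f : X ⟶ Spec (.of R)), Cl X f → Cl E (π ≫ f) →
    IsAffineBundle n π → (P E (π ≫ f) ↔ P X f)

/-- the hypersurface `F = 0` in the affine space over `R` with coordinates indexed by `σ` -/
noncomputable def hyp {R : Type} [CommRing R] {σ : Type} (F : MvPolynomial σ R) :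
    Spec (.of (MvPolynomial σ R ⧸ Ideal.span {F})) ⟶ Spec (.of R) :=
  Spec.map (CommRingCat.ofHom (algebraMap R (MvPolynomial σ R ⧸ Ideal.span {F})))

/-- `F = 0` is a smooth hypersurface of degree at most three over `R` (Jacobian criterion). -/
def IsSmoothCubic {R : Type} [CommRing R] {σ : Type} (F : MvPolynomial σ R) : Prop :=
  F.totalDegree ≤ 3 ∧ Ideal.span ({F} ∪ Set.range fun i => pderiv i F) = ⊤

end Pool.Agent.R904.CU
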