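import Pool.Agent.R904.CU.Bundle

/-!
# The hypersurface `∑ yₖ gₖ = 1` is an affine bundle over the complement of `V(g)`
-/

set_option autoImplicit false

open CategoryTheory CategoryTheory.Limits AlgebraicGeometry MvPolynomial

namespace Pool.Agent.R904.CU

theorem isPullback_of_mono {P X Y Z W : Scheme.{0}} {fst : P ⟶ X} {snd : P ⟶ Y} {f : X ⟶ Z}
    {g : Y ⟶ Z} (i : Z ⟶ W) [Mono i] (h : IsPullback fst snd (f ≫ i) (g ≫ i)) :
    IsPullback fst snd f g := by
  have hw : fst ≫ f = snd ≫ g := by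
    rw [← cancel_mono i, Category.assoc, Category.assoc]
    exact h.w
  refine ⟨⟨hw⟩, ⟨PullbackCone.IsLimit.mk hw (fun s => h.lift s.fst s.snd ?_) ?_ ?_ ?_⟩⟩
  · rw [← Category.assoc, ← Category.assoc, s.condition]
  · intro s
    exact h.lift_fst _ _ _
  · intro s
    exact h.lift_snd _ _ _
  · intro s m h1 h2
    apply h.hom_ext
    · rw [h1, h.lift_fst]
    · rw [h2, h.lift_snd]

section

variable {A : Type} [CommRing A] {κ : Type} [Fintype κ] (g : κ → A)

theorem isOpen_setU : IsOpen {x : PrimeSpectrum A | ∃ k, g k ∉ x.asIdeal} := by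
  have h : {x : PrimeSpectrum A | ∃ k, g k ∉ x.asIdeal} =
      ⋃ k, (PrimeSpectrum.basicOpen (g k) : Set (PrimeSpectrum A)) := by
    ext x
    simp
  rw [h]
  exact isOpen_iUnion fun k => (PrimeSpectrum.basicOpen (g k)).2

/-- the complement of `V(g)` -/
noncomputable def openU : (Spec (.of A)).Opens :=
  ⟨{x : PrimeSpectrum A | ∃ k, g k ∉ x.asIdeal}, isOpen_setU g⟩

theorem mem_openU (x : Spec (.of A)) : x ∈ openU g ↔ ∃ k, g k ∉ x.asIdeal := Iff.rfl

/-- the projection of the hypersurface -/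
noncomputable def proj0 : Spec (.of (Ring1 g)) ⟶ Spec (.of A) :=
  Spec.map (CommRingCat.ofHom (algebraMap A (Ring1 g)))

theorem range_proj0 : Set.range (proj0 g) ⊆ Set.range (openU g).ι := by
  rintro _ ⟨q, rfl⟩
  rw [Scheme.Opens.range_ι]
  by_contra hcon
  have h1 : ∀ k, algebraMap A (Ring1 g) (g k) ∈ q.asIdeal := by
    intro k
    by_contra h2
    apply hcon
    exact ⟨k, h2⟩
  apply q.2.ne_top
  rw [Ideal.eq_top_iff_one, ← rel1 g]
  exact Ideal.sum_mem _ fun k _ => Ideal.mul_mem_left _ _ (h1 k)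

/-- the projection of the hypersurface to the complement of `V(g)` -/
noncomputable def proj : Spec (.of (Ring1 g)) ⟶ (openU g : Scheme.{0}) :=
  IsOpenImmersion.lift (openU g).ι (proj0 g) (range_proj0 g)

theorem proj_ι : proj g ≫ (openU g).ι = proj0 g := IsOpenImmersion.lift_fac _ _ _

theorem isAffineBundle_proj : IsAffineBundle (Fintype.card κ - 1) (proj g) := by
  classical
  intro x
  have hx : (openU g).ι x ∈ openU g := by
    have : (openU g).ι x ∈ Set.range (openU g).ι := ⟨x, rfl⟩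
    rwa [Scheme.Opens.range_ι] at this
  obtain ⟨k, hk⟩ := (mem_openU g _).1 hx
  let u0 : Spec (.of (Loc g k)) ⟶ Spec (.of A) :=
    Spec.map (CommRingCat.ofHom (algebraMap A (Loc g k)))
  have hu0 : Set.range u0 = {x : PrimeSpectrum A | g k ∉ x.asIdeal} :=
    PrimeSpectrum.localization_away_comap_range (Loc g k) (g k)
  have hle : Set.range u0 ⊆ Set.range (openU g).ι := by
    rw [Scheme.Opens.range_ι, hu0]
    exact fun y hy => ⟨k, hy⟩
  have hop : IsOpenImmersion u0 := IsOpenImmersion.of_isLocalization (g k)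
  let u : Spec (.of (Loc g k)) ⟶ (openU g : Scheme.{0}) := IsOpenImmersion.lift (openU g).ι u0 hle
  have hu : u ≫ (openU g).ι = u0 := IsOpenImmersion.lift_fac _ _ _
  have hcomp : IsOpenImmersion (u ≫ (openU g).ι) := by rwa [hu]
  refine ⟨.of (Loc g k), u, {j : κ // j ≠ k}, inferInstance,
    Spec.map (CommRingCat.ofHom (inl g k)), ?_, IsOpenImmersion.of_comp u (openU g).ι, ?_, ?_⟩
  · rw [Fintype.card_subtype_compl, Fintype.card_subtype_eq]
  · have h1 : (openU g).ι x ∈ Set.range u0 := by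
      rw [hu0]
      exact hk
    obtain ⟨y, hy⟩ := h1
    refine ⟨y, ?_⟩
    apply (openU g).ι.isOpenEmbedding.injective
    rw [← hy, ← hu]
    rfl
  · apply isPullback_of_mono (openU g).ι
    rw [proj_ι, hu]
    exact isPullback_SpecMap_of_isPushout _ _ _ _ (isPushout g k)

/-- the closed subscheme `V(g)` -/
noncomputable def closedZ : Spec (.of (A ⧸ Ideal.span (Set.range g))) ⟶ Spec (.of A) :=
  Spec.map (CommRingCat.ofHom (Ideal.Quotient.mk (Ideal.span (Set.range g))))

instance : IsClosedImmersion (closedZ g) :=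
  IsClosedImmersion.spec_of_surjective _ Ideal.Quotient.mk_surjective

theorem range_closedZ : Set.range (closedZ g) = (Set.range (openU g).ι)ᶜ := by
  have h1 : Set.range (closedZ g) = PrimeSpectrum.zeroLocus (Ideal.span (Set.range g)) := by
    have h := range_comap_of_surjective (A ⧸ Ideal.span (Set.range g))
      (Ideal.Quotient.mk (Ideal.span (Set.range g))) Ideal.Quotient.mk_surjective
    rw [Ideal.mk_ker] at h
    exact h
  rw [h1, Scheme.Opens.range_ι, PrimeSpectrum.zeroLocus_span]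
  apply Set.Subset.antisymm
  · rintro x hx ⟨k, hk⟩
    exact hk (hx ⟨k, rfl⟩)
  · rintro x hx _ ⟨k, rfl⟩
    by_contra h2
    exact hx ⟨k, h2⟩

end

end Pool.Agent.R904.CU
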