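import Pool.Agent.R904.CU.Regular

/-!
# K'-theory of schemes of finite type over `ℤ`, formally
-/

set_option autoImplicit false

open CategoryTheory CategoryTheory.Limits AlgebraicGeometry MvPolynomial

namespace Pool.Agent.R904.CU

/-- the multiplicative group over `ℤ` -/
noncomputable def gm : Spec (.of (LaurentPolynomial ℤ)) ⟶ Spec (.of ℤ) :=
  Spec.map (CommRingCat.ofHom (algebraMap ℤ (LaurentPolynomial ℤ)))

/-- The properties of the groups `K'_n(X)` of schemes of finite type over `ℤ` which are used (all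
proved by Quillen). -/
structure KPrime where
  /-- the group `K'_n(X)` -/
  G : ℕ → Scheme.{0} → Type
  /-- its group structure -/
  grp : ∀ (n : ℕ) (X : Scheme.{0}), AddCommGroup (G n X)
  /-- the groups of the empty scheme vanish -/
  empty : ∀ (n : ℕ) (X : Scheme.{0}), IsEmpty X → Subsingleton (G n X)
  /-- isomorphic schemes have isomorphic groups -/
  iso : ∀ (n : ℕ) (X Y : Scheme.{0}), (X ≅ Y) → Nonempty (G n X ≃+ G n Y)
  /-- the localization sequence `K'_{n+1}(X) → K'_{n+1}(U) → K'_n(Z) → K'_n(X) → K'_n(U)` of a closed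
  subscheme `Z` with open complement `U`; the last map is surjective for `n = 0` -/
  localization : ∀ (X Z U : Scheme.{0}) (f : X ⟶ Spec (.of ℤ)) (i : Z ⟶ X) (j : U ⟶ X),
    FinType ℤ X f → IsClosedImmersion i → IsOpenImmersion j → Set.range i = (Set.range j)ᶜ →
    ∃ (a : ∀ n, G n Z →+ G n X) (b : ∀ n, G n X →+ G n U) (d : ∀ n, G (n + 1) U →+ G n Z),
      (∀ n, Function.Exact (a n) (b n)) ∧ (∀ n, Function.Exact (b (n + 1)) (d n)) ∧
      (∀ n, Function.Exact (d n) (a n)) ∧ Function.Surjective (b 0)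
  /-- homotopy invariance: `K'_n(E) = K'_n(X)` for affine bundles `E → X` -/
  bundle : ∀ (n N : ℕ) (E X : Scheme.{0}) (π : E ⟶ X) (f : X ⟶ Spec (.of ℤ)), FinType ℤ X f →
    FinType ℤ E (π ≫ f) → IsAffineBundle N π → Nonempty (G n X ≃+ G n E)
  /-- the fundamental theorem: `K'_{n+1}(X × 𝔾ₘ) = K'_{n+1}(X) ⊕ K'_n(X)` -/
  fundamental : ∀ (n : ℕ) (X : Scheme.{0}) (f : X ⟶ Spec (.of ℤ)), FinType ℤ X f →
    Nonempty (G (n + 1) (pullback f gm) ≃+ G (n + 1) X × G n X)
  /-- the K-groups of `ℤ` are finitely generated -/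
  integers : ∀ n : ℕ, AddGroup.FG (G n (Spec (.of ℤ)))

attribute [instance] KPrime.grp

/-- the hypersurface `∑ yₖ gₖ(x) = 1` over `ℤ` -/
noncomputable abbrev quadHyp {σ κ : Type} [Fintype κ] (g : κ → MvPolynomial σ ℤ) : Scheme.{0} :=
  Spec (.of (MvPolynomial (κ ⊕ σ) ℤ ⧸ Ideal.span {bigPoly g}))

namespace KPrime

variable (K : KPrime)

/-- Bass's conjecture: for every regular scheme `X` of finite type over `ℤ` and every `n` the group
`K'_n(X)` is finitely generated. -/
def Bass : Prop := ∀ (X : Scheme.{0}) (f : X ⟶ Spec (.of ℤ)), FinType ℤ X f → IsRegularScheme X →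
  ∀ n : ℕ, AddGroup.FG (K.G n X)

/-- the group `K'_n(X)` is finitely generated for every scheme `X` of finite type over `ℤ` -/
def AllFG (n : ℕ) : Prop := ∀ (X : Scheme.{0}) (f : X ⟶ Spec (.of ℤ)), FinType ℤ X f →
  AddGroup.FG (K.G n X)

/-- the group `K'_n` of the hypersurfaces `∑ yₖ gₖ(x) = 1`, where the `gₖ` are polynomials of degree at
most two over `ℤ`, is finitely generated -/
def CubicFG (n : ℕ) : Prop := ∀ (σ κ : Type) [Fintype σ] [Fintype κ] (g : κ → MvPolynomial σ ℤ),
  (∀ k, (g k).totalDegree ≤ 2) → AddGroup.FG (K.G n (quadHyp g))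

end KPrime

end Pool.Agent.R904.CU
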