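import Mathlib

/-!
# Finitely generated algebras have presentations by quadratic polynomials
-/

set_option autoImplicit false

open MvPolynomial

namespace Pool.Agent.R904.CU

section

variable {n D : ℕ}

/-- exponents bounded by `D` -/
abbrev Mon (n D : ℕ) : Type := Fin n → Fin (D + 1)

/-- the exponent as a finitely supported function -/
noncomputable def toF (m : Mon n D) : Fin n →₀ ℕ :=
  Finsupp.equivFunOnFinite.symm fun i => (m i : ℕ)

theorem toF_apply (m : Mon n D) (i : Fin n) : toF m i = m i := rfl

theorem toF_injective : Function.Injective (toF (n := n) (D := D)) := by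
  intro a b h
  funext i
  apply Fin.ext
  have := congrArg (fun f : Fin n →₀ ℕ => f i) h
  exact this

/-- the exponent of a variable -/
def evar (i : Fin n) : Mon n D := Pi.single i 1

/-- multiplication by a variable -/
def bump (i : Fin n) (m : Mon n D) : Mon n D := Function.update m i (m i + 1)

/-- the index set of the quadratic relations -/
abbrev Idx (n D r : ℕ) : Type := (Unit ⊕ (Fin n × Mon n D)) ⊕ Fin r

variable {R : Type} [CommRing R] {r : ℕ}

/-- the quadratic relations -/
noncomputable def quad (D : ℕ) (f : Fin r → MvPolynomial (Fin n) R) :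
    Idx n D r → MvPolynomial (Mon n D) R
  | Sum.inl (Sum.inl _) => X 0 - 1
  | Sum.inl (Sum.inr (i, m)) => if (m i : ℕ) < D then X (evar i) * X m - X (bump i m) else 0
  | Sum.inr k => ∑ m : Mon n D, C (coeff (toF m) (f k)) * X m

theorem totalDegree_quad (f : Fin r → MvPolynomial (Fin n) R) (x : Idx n D r) :
    (quad D f x).totalDegree ≤ 2 := by
  have hX : ∀ m : Mon n D, (X m : MvPolynomial (Mon n D) R).totalDegree ≤ 1 := by
    intro m
    exact (totalDegree_monomial_le _ _).trans (by simp)
  rcases x with (_ | ⟨i, m⟩) | k
  · change (X 0 - 1 : MvPolynomial (Mon n D) R).totalDegree ≤ 2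
    refine (totalDegree_sub _ _).trans (max_le ((hX _).trans one_le_two) ?_)
    rw [totalDegree_one]
    exact Nat.zero_le _
  · change (if (m i : ℕ) < D then X (evar i) * X m - X (bump i m) else 0 :
      MvPolynomial (Mon n D) R).totalDegree ≤ 2
    split_ifs
    · refine (totalDegree_sub _ _).trans (max_le ?_ ((hX _).trans one_le_two))
      exact (totalDegree_mul _ _).trans (add_le_add (hX _) (hX _))
    · rw [totalDegree_zero]
      exact Nat.zero_le _
  · change (∑ m : Mon n D, C (coeff (toF m) (f k)) * X m).totalDegree ≤ 2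
    refine (totalDegree_finsetSum_le (fun m _ => ?_)).trans one_le_two
    refine (totalDegree_mul _ _).trans ?_
    rw [totalDegree_C, zero_add]
    exact hX m

/-- the ring of the quadratic relations -/
abbrev QRing (D : ℕ) (f : Fin r → MvPolynomial (Fin n) R) : Type :=
  MvPolynomial (Mon n D) R ⧸ Ideal.span (Set.range (quad D f))

/-- the given ring -/
abbrev BRing (f : Fin r → MvPolynomial (Fin n) R) : Type :=
  MvPolynomial (Fin n) R ⧸ Ideal.span (Set.range f)

variable (f : Fin r → MvPolynomial (Fin n) R)

theorem quad_zero (x : Idx n D r) :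
    (Ideal.Quotient.mk (Ideal.span (Set.range (quad D f))) (quad D f x)) = 0 :=
  Ideal.Quotient.eq_zero_iff_mem.2 (Ideal.subset_span ⟨x, rfl⟩)

/-- the class of a variable -/
noncomputable def zvar (m : Mon n D) : QRing D f := Ideal.Quotient.mk _ (X m)

theorem zvar_zero : zvar (D := D) f 0 = 1 := by
  have h := quad_zero (D := D) f (Sum.inl (Sum.inl ()))
  change Ideal.Quotient.mk _ (X 0 - 1) = 0 at h
  rw [map_sub, map_one, sub_eq_zero] at h
  exact h

theorem zvar_bump (i : Fin n) (m : Mon n D) (h : (m i : ℕ) < D) :
    zvar f (evar i) * zvar f m = zvar f (bump i m) := by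
  have h1 := quad_zero (D := D) f (Sum.inl (Sum.inr (i, m)))
  change Ideal.Quotient.mk _ (if (m i : ℕ) < D then X (evar i) * X m - X (bump i m) else 0) = 0 at h1
  rw [if_pos h, map_sub, map_mul, sub_eq_zero] at h1
  exact h1

theorem prod_zvar (s : ℕ) : ∀ m : Mon n D, ∑ i, (m i : ℕ) = s →
    ∏ i, zvar f (evar i) ^ (m i : ℕ) = zvar f m := by
  induction s with
  | zero =>
    intro m hm
    have h0 : ∀ i, m i = 0 := by
      intro i
      rw [Finset.sum_eq_zero_iff] at hm
      exact Fin.ext (hm i (Finset.mem_univ i))
    have h1 : m = 0 := funext h0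
    subst h1
    rw [zvar_zero]
    simp
  | succ s ih =>
    intro m hm
    have hex : ∃ i, m i ≠ 0 := by
      by_contra hcon
      push Not at hcon
      simp [hcon] at hm
    obtain ⟨i, hi⟩ := hex
    have hi' : 0 < (m i : ℕ) := Nat.pos_of_ne_zero fun h => hi (Fin.ext h)
    let m' : Mon n D := Function.update m i ⟨(m i : ℕ) - 1, by have := (m i).2; omega⟩
    have hm'i : (m' i : ℕ) = (m i : ℕ) - 1 := by simp [m']
    have hlt : (m' i : ℕ) < D := by
      have := (m i).2
      omega
    have hb : bump i m' = m := by
      unfold bump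
      funext j
      by_cases hj : j = i
      · subst hj
        rw [Function.update_self]
        apply Fin.ext
        rw [Fin.val_add_one_of_lt' (by rw [hm'i]; have := (m j).2; omega), hm'i]
        omega
      · rw [Function.update_of_ne hj]
        simp [m', Function.update_of_ne hj]
    have hval : ∀ j, (m j : ℕ) = (m' j : ℕ) + if j = i then 1 else 0 := by
      intro j
      by_cases hj : j = i
      · subst hj
        rw [if_pos rfl, hm'i]
        omega
      · rw [if_neg hj]
        simp [m', Function.update_of_ne hj]
    have hsum : ∑ j, (m' j : ℕ) = s := by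
      have h1 : ∑ j, (m j : ℕ) = ∑ j, (m' j : ℕ) + 1 := by
        rw [Finset.sum_congr rfl fun j _ => hval j, Finset.sum_add_distrib]
        simp
      omega
    have h2 := ih m' hsum
    rw [← hb, ← zvar_bump f i m' hlt, ← h2, hb]
    rw [Finset.prod_congr rfl fun j _ => congrArg (fun t => zvar f (evar j) ^ t) (hval j)]
    simp only [pow_add, Finset.prod_mul_distrib]
    rw [mul_comm]
    congr 1
    simp [Finset.prod_ite_eq', pow_ite]

theorem aeval_monomial_zvar (m : Mon n D) (a : R) :
    aeval (fun i => zvar f (evar i)) (monomial (toF m) a) =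
      algebraMap R (QRing D f) a * zvar f m := by
  rw [aeval_monomial, Finsupp.prod_fintype _ _ (fun i => pow_zero _)]
  congr 1
  exact prod_zvar f _ m rfl

theorem sum_monomials {p : MvPolynomial (Fin n) R} (hp : ∀ s ∈ p.support, ∀ i, s i ≤ D) :
    ∑ m : Mon n D, monomial (toF m) (coeff (toF m) p) = p := by
  classical
  have h1 : ∑ m : Mon n D, monomial (toF m) (coeff (toF m) p) =
      ∑ s ∈ Finset.univ.image (toF (n := n) (D := D)), monomial s (coeff s p) :=
    (Finset.sum_image (f := fun s => monomial s (coeff s p)) (g := toF (n := n) (D := D))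
      (fun a _ b _ h => toF_injective h)).symm
  rw [h1]
  conv_rhs => rw [as_sum p]
  symm
  apply Finset.sum_subset
  · intro s hs
    rw [Finset.mem_image]
    refine ⟨fun i => ⟨s i, Nat.lt_succ_of_le (hp s hs i)⟩, Finset.mem_univ _, ?_⟩
    ext i
    rfl
  · intro s _ hs
    rw [notMem_support_iff.1 hs, monomial_zero]

theorem aeval_f (hf : ∀ k, ∀ s ∈ (f k).support, ∀ i, s i ≤ D) (k : Fin r) :
    aeval (fun i => zvar (D := D) f (evar i)) (f k) = 0 := by
  rw [← sum_monomials (D := D) (hf k), map_sum]
  rw [Finset.sum_congr rfl fun m _ => aeval_monomial_zvar f m _]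
  have h := quad_zero (D := D) f (Sum.inr k)
  change Ideal.Quotient.mk _ (∑ m : Mon n D, C (coeff (toF m) (f k)) * X m) = 0 at h
  rw [map_sum] at h
  refine Eq.trans (Finset.sum_congr rfl fun m _ => ?_) h
  rw [map_mul]
  rfl

/-- from the given ring -/
noncomputable def psi (hf : ∀ k, ∀ s ∈ (f k).support, ∀ i, s i ≤ D) : BRing f →ₐ[R] QRing D f :=
  Ideal.Quotient.liftₐ _ (aeval fun i => zvar f (evar i)) (by
    intro a ha
    have h : Ideal.span (Set.range f) ≤
        RingHom.ker (aeval fun i => zvar (D := D) f (evar i) : _ →ₐ[R] QRing D f) := by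
      rw [Ideal.span_le]
      rintro _ ⟨k, rfl⟩
      exact aeval_f f hf k
    exact h ha)

/-- to the given ring -/
noncomputable def phi (hD : 0 < D) (hf : ∀ k, ∀ s ∈ (f k).support, ∀ i, s i ≤ D) :
    QRing D f →ₐ[R] BRing f :=
  Ideal.Quotient.liftₐ _
    (aeval fun m => (Ideal.Quotient.mk (Ideal.span (Set.range f)) (monomial (toF m) 1) : BRing f)) (by
    intro a ha
    have h : Ideal.span (Set.range (quad D f)) ≤ RingHom.ker (aeval fun m : Mon n D =>
        (Ideal.Quotient.mk (Ideal.span (Set.range f)) (monomial (toF m) 1) : BRing f) :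
          _ →ₐ[R] BRing f) := by
      rw [Ideal.span_le]
      rintro _ ⟨x, rfl⟩
      rcases x with (_ | ⟨i, m⟩) | k
      · change aeval _ (X 0 - 1 : MvPolynomial (Mon n D) R) = _
        have h1 : toF (0 : Mon n D) = 0 := by
          ext i
          rfl
        rw [map_sub, map_one, aeval_X, h1]
        change Ideal.Quotient.mk _ 1 - 1 = _
        rw [map_one, sub_self]
      · change aeval _ (if (m i : ℕ) < D then X (evar i) * X m - X (bump i m) else 0 :
          MvPolynomial (Mon n D) R) = _
        split_ifs with hlt
        · rw [map_sub, map_mul, aeval_X, aeval_X, aeval_X, ← map_mul, monomial_mul, one_mul,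
            sub_eq_zero]
          congr 3
          ext j
          rw [Finsupp.add_apply, toF_apply, toF_apply, toF_apply]
          unfold bump evar
          by_cases hj : j = i
          · subst hj
            rw [Function.update_self, Pi.single_eq_same,
              Fin.val_add_one_of_lt' (by omega)]
            have h2 : ((1 : Fin (D + 1)) : ℕ) = 1 := by
              rw [Fin.val_one']
              exact Nat.mod_eq_of_lt (by omega)
            rw [h2, add_comm]
          · rw [Function.update_of_ne hj, Pi.single_eq_of_ne hj]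
            simp
        · rw [map_zero]
      · change aeval _ (∑ m : Mon n D, C (coeff (toF m) (f k)) * X m) = _
        rw [map_sum]
        have h3 : ∀ m : Mon n D, aeval (fun m : Mon n D =>
            (Ideal.Quotient.mk (Ideal.span (Set.range f)) (monomial (toF m) 1) : BRing f))
            (C (coeff (toF m) (f k)) * X m) =
            Ideal.Quotient.mk (Ideal.span (Set.range f)) (monomial (toF m) (coeff (toF m) (f k))) := by
          intro m
          rw [map_mul, aeval_X, aeval_C]
          have h4 : algebraMap R (BRing f) (coeff (toF m) (f k)) =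
              Ideal.Quotient.mk (Ideal.span (Set.range f)) (C (coeff (toF m) (f k))) := rfl
          rw [h4, ← map_mul, C_mul_monomial, mul_one]
        rw [Finset.sum_congr rfl fun m _ => h3 m, ← map_sum, sum_monomials (hf k)]
        exact Ideal.Quotient.eq_zero_iff_mem.2 (Ideal.subset_span ⟨k, rfl⟩)
    exact h ha)

/-- the two rings are isomorphic -/
noncomputable def quadEquiv (hD : 0 < D) (hf : ∀ k, ∀ s ∈ (f k).support, ∀ i, s i ≤ D) :
    QRing D f ≃ₐ[R] BRing f :=
  AlgEquiv.ofAlgHom (phi f hD hf) (psi f hf) (by
    apply Ideal.Quotient.algHom_ext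
    apply MvPolynomial.algHom_ext
    intro i
    change phi f hD hf (psi f hf (Ideal.Quotient.mk _ (X i))) = Ideal.Quotient.mk _ (X i)
    have h1 : psi f hf (Ideal.Quotient.mk _ (X i)) =
      aeval (fun i => zvar (D := D) f (evar i)) (X i : MvPolynomial (Fin n) R) := rfl
    rw [h1, aeval_X]
    have h2 : phi f hD hf (zvar f (evar i)) = aeval (fun m : Mon n D =>
        (Ideal.Quotient.mk (Ideal.span (Set.range f)) (monomial (toF m) 1) : BRing f))
        (X (evar i) : MvPolynomial (Mon n D) R) := rfl
    rw [h2, aeval_X]
    congr 1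
    have h3 : toF (evar i : Mon n D) = Finsupp.single i 1 := by
      ext j
      rw [toF_apply]
      unfold evar
      by_cases hj : j = i
      · subst hj
        rw [Pi.single_eq_same, Finsupp.single_eq_same, Fin.val_one']
        exact Nat.mod_eq_of_lt (by omega)
      · rw [Pi.single_eq_of_ne hj, Finsupp.single_eq_of_ne hj]
        rfl
    rw [h3]
    rfl) (by
    apply Ideal.Quotient.algHom_ext
    apply MvPolynomial.algHom_ext
    intro m
    change psi f hf (phi f hD hf (Ideal.Quotient.mk _ (X m))) = Ideal.Quotient.mk _ (X m)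
    have h2 : phi f hD hf (Ideal.Quotient.mk _ (X m)) = aeval (fun m : Mon n D =>
        (Ideal.Quotient.mk (Ideal.span (Set.range f)) (monomial (toF m) 1) : BRing f))
        (X m : MvPolynomial (Mon n D) R) := rfl
    rw [h2, aeval_X]
    have h1 : psi f hf (Ideal.Quotient.mk _ (monomial (toF m) 1)) =
      aeval (fun i => zvar (D := D) f (evar i)) (monomial (toF m) (1 : R)) := rfl
    rw [h1, aeval_monomial_zvar, map_one, one_mul]
    rfl)

end

/-- a finitely generated algebra over a noetherian ring has a presentation by polynomials of degree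
at most two -/
theorem exists_quadratic (R : Type) [CommRing R] [IsNoetherianRing R] (B : Type) [CommRing B]
    [Algebra R B] [Algebra.FiniteType R B] :
    ∃ (σ κ : Type) (_ : Fintype σ) (_ : Fintype κ) (g : κ → MvPolynomial σ R),
      (∀ k, (g k).totalDegree ≤ 2) ∧
      Nonempty ((MvPolynomial σ R ⧸ Ideal.span (Set.range g)) ≃ₐ[R] B) := by
  obtain ⟨n, p, hp⟩ := Algebra.FiniteType.iff_quotient_mvPolynomial''.1
    (inferInstance : Algebra.FiniteType R B)
  obtain ⟨r, f, hf⟩ := (Submodule.fg_iff_exists_fin_generating_family.1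
    (IsNoetherian.noetherian (RingHom.ker p)))
  have hker : RingHom.ker p = Ideal.span (Set.range f) := hf.symm
  let D : ℕ := (∑ k, (f k).totalDegree) + 1
  have hD : 0 < D := Nat.succ_pos _
  have hbd : ∀ k, ∀ s ∈ (f k).support, ∀ i, s i ≤ D := by
    intro k s hs i
    have h1 : s i ≤ s.degree := by
      rw [Finsupp.degree]
      by_cases hi : i ∈ s.support
      · exact Finset.single_le_sum (f := fun i => s i) (fun j _ => Nat.zero_le _) hi
      · rw [Finsupp.notMem_support_iff.1 hi]
        exact Nat.zero_le _
    have h2 : s.degree ≤ (f k).totalDegree := le_totalDegree hs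
    have h3 : (f k).totalDegree ≤ ∑ k, (f k).totalDegree :=
      Finset.single_le_sum (f := fun k => (f k).totalDegree) (fun j _ => Nat.zero_le _)
        (Finset.mem_univ k)
    omega
  refine ⟨Mon n D, Idx n D r, inferInstance, inferInstance, quad D f, totalDegree_quad f, ⟨?_⟩⟩
  exact (quadEquiv f hD hbd).trans ((Ideal.quotientEquivAlgOfEq R hker.symm).trans
    (Ideal.quotientKerAlgEquivOfSurjective hp))

end Pool.Agent.R904.CU
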