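import Pool.Agent.R904.CU.Geom
import Pool.Agent.R904.CU.Quad
import Pool.Agent.R904.CU.Defs

/-!
# Smooth affine cubic hypersurfaces suffice
-/

set_option autoImplicit false

open CategoryTheory CategoryTheory.Limits AlgebraicGeometry MvPolynomial

namespace Pool.Agent.R904.CU

/-- a class of schemes of finite type -/
structure Cls {R : Type} [CommRing R] (Cl : SchProp R) : Prop where
  closed : ∀ (X Z : Scheme.{0}) (f : X ⟶ Spec (.of R)) (i : Z ⟶ X), IsClosedImmersion i → Cl X f →
    Cl Z (i ≫ f)
  opn : ∀ (X U : Scheme.{0}) (f : X ⟶ Spec (.of R)) (j : U ⟶ X), IsOpenImmersion j → Cl X f →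
    Cl U (j ≫ f)
  affine : ∀ (B : Type) [CommRing B] [Algebra R B], Algebra.FiniteType R B →
    Cl (Spec (.of B)) (Spec.map (CommRingCat.ofHom (algebraMap R B)))
  ft : ∀ (X : Scheme.{0}) (f : X ⟶ Spec (.of R)), Cl X f → LocallyOfFiniteType f ∧ QuasiCompact f

section

variable {R : Type} [CommRing R]

/-- the polynomial `∑ yₖ gₖ - 1` in one set of variables -/
noncomputable def bigPoly {σ κ : Type} [Fintype κ] (g : κ → MvPolynomial σ R) :
    MvPolynomial (κ ⊕ σ) R := ∑ k, X (Sum.inl k) * rename Sum.inr (g k) - 1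

theorem sumAlgEquiv_rename {σ κ : Type} (p : MvPolynomial σ R) :
    sumAlgEquiv R κ σ (rename Sum.inr p) = C p := by
  induction p using MvPolynomial.induction_on with
  | C a => rw [rename_C, sumAlgEquiv_C_inl]
  | add p q hp hq => rw [map_add, map_add, hp, hq, C_add]
  | mul_X p i hp => rw [map_mul, map_mul, hp, rename_X, sumAlgEquiv_X_inr, C_mul]

theorem sumAlgEquiv_bigPoly {σ κ : Type} [Fintype κ] (g : κ → MvPolynomial σ R) :
    sumAlgEquiv R κ σ (bigPoly g) = poly g := by
  unfold bigPoly poly
  rw [map_sub, map_one, map_sum]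
  congr 1
  refine Finset.sum_congr rfl fun k _ => ?_
  rw [map_mul, sumAlgEquiv_X_inl, sumAlgEquiv_rename]

theorem isSmoothCubic_bigPoly {σ κ : Type} [Fintype κ] (g : κ → MvPolynomial σ R)
    (hg : ∀ k, (g k).totalDegree ≤ 2) : IsSmoothCubic (bigPoly g) := by
  classical
  constructor
  · unfold bigPoly
    refine (totalDegree_sub _ _).trans (max_le ?_ ?_)
    · refine totalDegree_finsetSum_le fun k _ => ?_
      refine (totalDegree_mul _ _).trans ?_
      have h1 : (X (Sum.inl k) : MvPolynomial (κ ⊕ σ) R).totalDegree ≤ 1 :=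
        (totalDegree_monomial_le _ _).trans (by simp)
      have h2 : (rename Sum.inr (g k) : MvPolynomial (κ ⊕ σ) R).totalDegree ≤ 2 :=
        (totalDegree_rename_le _ _).trans (hg k)
      omega
    · rw [totalDegree_one]
      exact Nat.zero_le _
  · rw [Ideal.eq_top_iff_one]
    have hd : ∀ k, pderiv (Sum.inl k) (bigPoly g) = rename Sum.inr (g k) := by
      intro k
      unfold bigPoly
      have h1 : ∀ j, pderiv (Sum.inl k) (X (Sum.inl j) * rename Sum.inr (g j) :
          MvPolynomial (κ ⊕ σ) R) = if j = k then rename Sum.inr (g j) else 0 := by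
        intro j
        have h2 : pderiv (Sum.inl k) (rename Sum.inr (g j) : MvPolynomial (κ ⊕ σ) R) = 0 := by
          apply pderiv_eq_zero_of_notMem_vars
          intro h
          have h3 := vars_rename Sum.inr (g j) h
          rw [Finset.mem_image] at h3
          obtain ⟨a, -, ha⟩ := h3
          exact Sum.inr_ne_inl ha
        rw [pderiv_mul, h2, mul_zero, add_zero, pderiv_X]
        by_cases hj : j = k
        · subst hj
          rw [if_pos rfl, Pi.single_eq_same, one_mul]
        · rw [if_neg hj, Pi.single_eq_of_ne (fun h => hj (Sum.inl_injective h)), zero_mul]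
      rw [map_sub, map_sum, Finset.sum_congr rfl fun j _ => h1 j, pderiv_one, sub_zero]
      simp
    have h4 : (1 : MvPolynomial (κ ⊕ σ) R) =
        ∑ k, X (Sum.inl k) * pderiv (Sum.inl k) (bigPoly g) - bigPoly g := by
      simp only [hd]
      unfold bigPoly
      ring
    rw [h4]
    refine Ideal.sub_mem _ (Ideal.sum_mem _ fun k _ => Ideal.mul_mem_left _ _ ?_) ?_
    · exact Ideal.subset_span (Or.inr ⟨_, rfl⟩)
    · exact Ideal.subset_span (Or.inl rfl)

end

section

variable {R : Type} [CommRing R] [IsNoetherianRing R] {Cl P : SchProp R}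
  (hCl : Cls Cl) (h2 : TwoOfThree Cl P) (hb : BundleInvariant Cl P)
  (hS : ∀ (σ : Type) [Fintype σ] (F : MvPolynomial σ R), IsSmoothCubic F → P _ (hyp F))

include hCl h2 hS

theorem p_empty (Z : Scheme.{0}) [IsEmpty Z] (f : Z ⟶ Spec (.of R)) : P Z f := by
  have hS1 : IsSmoothCubic (1 : MvPolynomial Empty R) := by
    refine ⟨by rw [totalDegree_one]; exact Nat.zero_le _, ?_⟩
    rw [Ideal.eq_top_iff_one]
    exact Ideal.subset_span (Or.inl rfl)
  have h1 := hS Empty 1 hS1
  let X := Spec (.of (MvPolynomial Empty R ⧸ Ideal.span {(1 : MvPolynomial Empty R)}))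
  have hX : Cl X (hyp 1) := hCl.affine _ inferInstance
  let i : Z ⟶ X := (isInitialOfIsEmpty (X := Z)).to X
  have hem : IsEmpty X := by
    have : Subsingleton (MvPolynomial Empty R ⧸ Ideal.span {(1 : MvPolynomial Empty R)}) := by
      rw [Ideal.Quotient.subsingleton_iff, Ideal.span_singleton_one]
    exact inferInstanceAs (IsEmpty (PrimeSpectrum _))
  have hi : IsClosedImmersion i := inferInstance
  have hr : Set.range i = (Set.range (𝟙 X : X ⟶ X))ᶜ := by
    apply Set.eq_of_subset_of_subset
    · rintro x _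
      exact (hem.false x).elim
    · rintro x _
      exact (hem.false x).elim
  have h3 := (h2 X Z X (hyp 1) i (𝟙 X) hX hi inferInstance hr).2.2 h1 (by
    rw [Category.id_comp]
    exact h1)
  have h4 : i ≫ hyp 1 = f := (isInitialOfIsEmpty (X := Z)).hom_ext _ _
  rwa [h4] at h3

theorem p_iso {X Y : Scheme.{0}} (f : X ⟶ Spec (.of R)) (g : Y ⟶ Spec (.of R)) (e : X ≅ Y)
    (he : e.hom ≫ g = f) (hY : Cl Y g) (h : P Y g) : P X f := by
  have hem : IsEmpty ((⊥ : Y.Opens) : Scheme.{0}) := by
    refine ⟨fun x => ?_⟩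
    exact x.2
  have h1 := p_empty hCl h2 hS ((⊥ : Y.Opens) : Scheme.{0}) ((⊥ : Y.Opens).ι ≫ g)
  have h3 := (h2 Y X ((⊥ : Y.Opens) : Scheme.{0}) g e.hom (⊥ : Y.Opens).ι hY inferInstance
    inferInstance (by
      have ha : Set.range e.hom = Set.univ := Set.range_eq_univ.2 e.hom.surjective
      have hb' : Set.range (⊥ : Y.Opens).ι = ∅ := by
        rw [Scheme.Opens.range_ι]
        rfl
      rw [ha, hb', Set.compl_empty])).2.2 h h1
  rwa [he] at h3

include hb

/-- the complement of the zeros of quadratic polynomials -/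
theorem p_open {σ κ : Type} [Fintype σ] [Fintype κ] (g : κ → MvPolynomial σ R)
    (hg : ∀ k, (g k).totalDegree ≤ 2) :
    P (openU g) ((openU g).ι ≫ Spec.map (CommRingCat.ofHom (algebraMap R (MvPolynomial σ R)))) := by
  have h1 := hS (κ ⊕ σ) (bigPoly g) (isSmoothCubic_bigPoly g hg)
  have hA : Cl (Spec (.of (MvPolynomial σ R)))
    (Spec.map (CommRingCat.ofHom (algebraMap R (MvPolynomial σ R)))) := hCl.affine _ inferInstance
  have hU := hCl.opn _ _ _ (openU g).ι inferInstance hA
  have hcomm : proj g ≫ (openU g).ι ≫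
      Spec.map (CommRingCat.ofHom (algebraMap R (MvPolynomial σ R))) =
      Spec.map (CommRingCat.ofHom (algebraMap R (Ring1 g))) := by
    rw [← Category.assoc, proj_ι]
    unfold proj0
    rw [← Spec.map_comp, ← CommRingCat.ofHom_comp]
  have hE : Cl (Spec (.of (Ring1 g))) (proj g ≫ (openU g).ι ≫
      Spec.map (CommRingCat.ofHom (algebraMap R (MvPolynomial σ R)))) := by
    rw [hcomm]
    exact hCl.affine _ inferInstance
  rw [← hb _ _ _ (proj g) _ hU hE (isAffineBundle_proj g), hcomm]
  -- the isomorphism of rings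
  let e : (MvPolynomial (κ ⊕ σ) R ⧸ Ideal.span {bigPoly g}) ≃ₐ[R] Ring1 g :=
    Ideal.quotientEquivAlg _ _ (sumAlgEquiv R κ σ) (by
      rw [Ideal.map_span, Set.image_singleton]
      congr 2
      exact (sumAlgEquiv_bigPoly g).symm)
  refine p_iso hCl h2 hS _ (hyp (bigPoly g))
    (Scheme.Spec.mapIso e.toRingEquiv.toCommRingCatIso.op) ?_ (hCl.affine _ inferInstance) h1
  change Spec.map (CommRingCat.ofHom e.toRingEquiv.toRingHom) ≫ hyp (bigPoly g) = _
  unfold hyp
  rw [← Spec.map_comp, ← CommRingCat.ofHom_comp]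
  congr 2
  exact e.toAlgHom.comp_algebraMap

theorem p_space {σ : Type} [Fintype σ] : P (Spec (.of (MvPolynomial σ R)))
    (Spec.map (CommRingCat.ofHom (algebraMap R (MvPolynomial σ R)))) := by
  let g : Unit → MvPolynomial σ R := fun _ => 1
  have h1 := p_open hCl h2 hb hS g (fun _ => by
    rw [totalDegree_one]
    exact Nat.zero_le _)
  have htop : openU g = ⊤ := by
    ext x
    simp only [TopologicalSpace.Opens.coe_top, Set.mem_univ, iff_true]
    exact ⟨(), fun h => x.2.ne_top ((Ideal.eq_top_iff_one _).2 h)⟩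
  have hA : Cl (Spec (.of (MvPolynomial σ R)))
    (Spec.map (CommRingCat.ofHom (algebraMap R (MvPolynomial σ R)))) := hCl.affine _ inferInstance
  have hiso : IsIso (openU g).ι := by
    rw [htop]
    exact inferInstanceAs (IsIso (Scheme.topIso (Spec (.of (MvPolynomial σ R)))).hom)
  exact p_iso hCl h2 hS _ _ (asIso (openU g).ι).symm (by simp)
    (hCl.opn _ _ _ (openU g).ι inferInstance hA) h1

/-- affine schemes of finite type -/
theorem p_affine (B : Type) [CommRing B] [Algebra R B] (hB : Algebra.FiniteType R B) :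
    P (Spec (.of B)) (Spec.map (CommRingCat.ofHom (algebraMap R B))) := by
  obtain ⟨σ, κ, _, _, g, hg, ⟨e⟩⟩ := exists_quadratic R B
  have hA : Cl (Spec (.of (MvPolynomial σ R)))
    (Spec.map (CommRingCat.ofHom (algebraMap R (MvPolynomial σ R)))) := hCl.affine _ inferInstance
  have h1 := p_open hCl h2 hb hS g hg
  have h3 := p_space hCl h2 hb hS (σ := σ)
  have h4 := (h2 _ _ _ _ (closedZ g) (openU g).ι hA inferInstance inferInstance
    (range_closedZ g)).2.2 h3 h1
  have h5 : closedZ g ≫ Spec.map (CommRingCat.ofHom (algebraMap R (MvPolynomial σ R))) =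
      Spec.map (CommRingCat.ofHom (algebraMap R
        (MvPolynomial σ R ⧸ Ideal.span (Set.range g)))) := by
    unfold closedZ
    rw [← Spec.map_comp, ← CommRingCat.ofHom_comp]
  rw [h5] at h4
  refine p_iso hCl h2 hS _ _ (Scheme.Spec.mapIso e.toRingEquiv.toCommRingCatIso.op) ?_
    (hCl.affine _ inferInstance) h4
  change Spec.map (CommRingCat.ofHom e.toRingEquiv.toRingHom) ≫ _ = _
  rw [← Spec.map_comp, ← CommRingCat.ofHom_comp]
  congr 2
  exact e.toAlgHom.comp_algebraMap

theorem p_affine' (X : Scheme.{0}) [IsAffine X] (f : X ⟶ Spec (.of R)) (hf : Cl X f) : P X f := by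
  have hft := (hCl.ft X f hf).1
  obtain ⟨φ, hφ⟩ := Spec.map_surjective (X.isoSpec.inv ≫ f)
  have hft2 : LocallyOfFiniteType (Spec.map φ) := by
    rw [hφ]
    infer_instance
  have hφ2 : φ.hom.FiniteType := HasRingHomProperty.Spec_iff.mp hft2
  algebraize [φ.hom]
  have h1 := p_affine hCl h2 hb hS Γ(X, ⊤) ‹_›
  have hC := hCl.affine Γ(X, ⊤) ‹_›
  refine p_iso hCl h2 hS f _ X.isoSpec ?_ hC h1
  have h3 : Spec.map (CommRingCat.ofHom (algebraMap R Γ(X, ⊤))) = X.isoSpec.inv ≫ f := hφ
  rw [h3, Iso.hom_inv_id_assoc]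

/-- **Smooth affine cubic hypersurfaces suffice.** -/
theorem p_all (X : Scheme.{0}) (f : X ⟶ Spec (.of R)) (hf : Cl X f) : P X f := by
  obtain ⟨hft, hqc⟩ := hCl.ft X f hf
  have hln : IsLocallyNoetherian X := LocallyOfFiniteType.isLocallyNoetherian f
  have hcs : CompactSpace X := QuasiCompact.compactSpace_of_compactSpace f
  have hN : IsNoetherian X := { }
  have key : ∀ (C : TopologicalSpace.Closeds X) (Z : Scheme.{0}) (i : Z ⟶ X),
      IsClosedImmersion i → Set.range i = C → P Z (i ≫ f) := by
    intro C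
    induction C using WellFoundedLT.induction with
    | _ C ih =>
      intro Z i hi hr
      by_cases hem : IsEmpty Z
      · exact p_empty hCl h2 hS Z _
      · rw [not_isEmpty_iff] at hem
        obtain ⟨z⟩ := hem
        have hex : ∃ V : Z.Opens, IsAffineOpen V ∧ z ∈ V := by
          obtain ⟨_, ⟨V, hV, rfl⟩, hzV, -⟩ :=
            Z.isBasis_affineOpens.exists_subset_of_mem_open (Set.mem_univ z) isOpen_univ
          exact ⟨V, hV, hzV⟩
        obtain ⟨V, hV, hzV⟩ := hex
        have hVaff : IsAffine V := hV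
        let D : TopologicalSpace.Closeds Z := ⟨(V : Set Z)ᶜ, V.isOpen.isClosed_compl⟩
        let I := Scheme.IdealSheafData.vanishingIdeal D
        have hrI : Set.range I.subschemeι = (V : Set Z)ᶜ := by
          rw [Scheme.IdealSheafData.range_subschemeι]
          exact Scheme.IdealSheafData.coe_support_vanishingIdeal _
        have hZ : Cl Z (i ≫ f) := hCl.closed _ _ _ _ hi hf
        have hcl : IsClosedImmersion (I.subschemeι ≫ i) := inferInstance
        let C' : TopologicalSpace.Closeds X := ⟨Set.range (I.subschemeι ≫ i),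
          hcl.isClosedEmbedding.isClosed_range⟩
        have hlt : C' < C := by
          rw [SetLike.lt_iff_le_and_exists]
          constructor
          · rintro _ ⟨w, rfl⟩
            have : (I.subschemeι ≫ i) w ∈ Set.range i := ⟨I.subschemeι w, rfl⟩
            rw [hr] at this
            exact this
          · refine ⟨i z, ?_, ?_⟩
            · have : i z ∈ Set.range i := ⟨z, rfl⟩
              rw [hr] at this
              exact this
            · rintro ⟨w, hw⟩
              have h3 : I.subschemeι w = z := hi.isClosedEmbedding.injective hw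
              have h4 : z ∈ Set.range I.subschemeι := ⟨w, h3⟩
              rw [hrI] at h4
              exact h4 hzV
        have hW := ih C' hlt I.subscheme (I.subschemeι ≫ i) hcl rfl
        have hV' : P V (V.ι ≫ i ≫ f) :=
          p_affine' hCl h2 hb hS V _ (hCl.opn _ _ _ _ inferInstance hZ)
        rw [Category.assoc] at hW
        exact (h2 Z I.subscheme V (i ≫ f) I.subschemeι V.ι hZ inferInstance inferInstance (by
          rw [hrI, Scheme.Opens.range_ι])).2.1 hW hV'
  have h5 := key ⊤ X (𝟙 X) inferInstance (by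
    have : Set.range (𝟙 X : X ⟶ X) = Set.univ := Set.range_eq_univ.2 (𝟙 X : X ⟶ X).surjective
    rw [this]
    rfl)
  rwa [Category.id_comp] at h5

end

section

variable (R : Type) [CommRing R] [IsNoetherianRing R]

theorem cls_finType : Cls (FinType R) where
  closed X Z f i hi hf := by
    obtain ⟨h1, h2⟩ := hf
    exact ⟨inferInstance, inferInstance⟩
  opn X U f j hj hf := by
    obtain ⟨h1, h2⟩ := hf
    have hln : IsLocallyNoetherian X := LocallyOfFiniteType.isLocallyNoetherian f
    exact ⟨inferInstance, inferInstance⟩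
  affine B _ _ hB := by
    refine ⟨?_, inferInstance⟩
    exact HasRingHomProperty.Spec_iff.mpr
      (show (CommRingCat.ofHom (algebraMap R B)).hom.FiniteType from by
        rw [CommRingCat.hom_ofHom, RingHom.finiteType_algebraMap]
        exact hB)
  ft X f hf := hf

theorem cls_sepFinType : Cls (SepFinType R) where
  closed X Z f i hi hf := by
    obtain ⟨h1, h2, h3⟩ := hf
    exact ⟨inferInstance, inferInstance, inferInstance⟩
  opn X U f j hj hf := by
    obtain ⟨h1, h2, h3⟩ := hf
    have hln : IsLocallyNoetherian X := LocallyOfFiniteType.isLocallyNoetherian f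
    exact ⟨inferInstance, inferInstance, inferInstance⟩
  affine B _ _ hB := by
    refine ⟨?_, inferInstance, inferInstance⟩
    exact HasRingHomProperty.Spec_iff.mpr
      (show (CommRingCat.ofHom (algebraMap R B)).hom.FiniteType from by
        rw [CommRingCat.hom_ofHom, RingHom.finiteType_algebraMap]
        exact hB)
  ft X f hf := ⟨hf.1, hf.2.1⟩

end

end Pool.Agent.R904.CU
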