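import Pool.Agent.R904.CU.Shift

/-!
# The hypersurfaces `∑ yₖ gₖ = 1` are regular
-/

set_option autoImplicit false

open CategoryTheory CategoryTheory.Limits AlgebraicGeometry MvPolynomial

namespace Pool.Agent.R904.CU

/-- all local rings of `X` are regular local rings -/
def IsRegularScheme (X : Scheme.{0}) : Prop := ∀ x : X, IsRegularLocalRing (X.presheaf.stalk x)

/-- localizations of regular rings are regular -/
theorem isRegularRing_localization (A : Type) [CommRing A] [IsRegularRing A] (M : Submonoid A)
    (B : Type) [CommRing B] [Algebra A B] [IsLocalization M B] : IsRegularRing B := by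
  have hN : IsNoetherianRing B := IsLocalization.isNoetherianRing M B inferInstance
  rw [isRegularRing_iff]
  intro q hq
  have h1 : IsLocalization.AtPrime (Localization.AtPrime q) (q.comap (algebraMap A B)) :=
    IsLocalization.isLocalization_isLocalization_atPrime_isLocalization M _ q
  exact IsRegularLocalRing.of_ringEquiv (IsLocalization.algEquiv
    (q.comap (algebraMap A B)).primeCompl (Localization.AtPrime (q.comap (algebraMap A B)))
    (Localization.AtPrime q)).toRingEquiv

theorem isRegularScheme_spec (A : Type) [CommRing A] [IsRegularRing A] :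
    IsRegularScheme (Spec (.of A)) := by
  intro x
  have hx : x.asIdeal.IsPrime := x.2
  have h := IsRegularRing.isRegularLocalRing_localization (R := A) x.asIdeal
  exact IsRegularLocalRing.of_ringEquiv
    ((Spec.stalkIso (.of A) x).commRingCatIsoToRingEquiv).symm

theorem isRegularScheme_of_cover {X : Scheme.{0}}
    (h : ∀ x : X, ∃ (V : Scheme.{0}) (v : V ⟶ X), IsOpenImmersion v ∧ x ∈ Set.range v ∧
      IsRegularScheme V) : IsRegularScheme X := by
  intro x
  obtain ⟨V, v, hv, ⟨y, rfl⟩, hV⟩ := h x
  have h1 := hV y
  exact IsRegularLocalRing.of_ringEquiv (asIso (v.stalkMap y)).commRingCatIsoToRingEquiv.symm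

theorem isRegularScheme_iso {X Y : Scheme.{0}} (e : X ≅ Y) (h : IsRegularScheme Y) :
    IsRegularScheme X := by
  refine isRegularScheme_of_cover fun x => ⟨Y, e.inv, inferInstance, ?_, h⟩
  exact ⟨e.hom x, by simp⟩

theorem isRegularScheme_ring1 {A : Type} [CommRing A] [IsRegularRing A] {κ : Type} [Fintype κ]
    (g : κ → A) : IsRegularScheme (Spec (.of (Ring1 g))) := by
  classical
  refine isRegularScheme_of_cover fun x => ?_
  have hx : proj0 g x ∈ openU g := by
    have := range_proj0 g ⟨x, rfl⟩
    rwa [Scheme.Opens.range_ι] at this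
  obtain ⟨k, hk⟩ := (mem_openU g _).1 hx
  let u0 : Spec (.of (Loc g k)) ⟶ Spec (.of A) :=
    Spec.map (CommRingCat.ofHom (algebraMap A (Loc g k)))
  have hu0 : Set.range u0 = {x : PrimeSpectrum A | g k ∉ x.asIdeal} :=
    PrimeSpectrum.localization_away_comap_range (Loc g k) (g k)
  have hop : IsOpenImmersion u0 := IsOpenImmersion.of_isLocalization (g k)
  have hp := isPullback_SpecMap_of_isPushout _ _ _ _ (isPushout g k)
  have hreg : IsRegularRing (Loc g k) :=
    isRegularRing_localization A (Submonoid.powers (g k)) (Loc g k)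
  refine ⟨Spec (.of (MvPolynomial {j : κ // j ≠ k} (Loc g k))),
    Spec.map (CommRingCat.ofHom (inl g k)), ?_, ?_, isRegularScheme_spec _⟩
  · exact MorphismProperty.of_isPullback hp.flip hop
  · have h1 : proj0 g x ∈ Set.range u0 := by
      rw [hu0]
      exact hk
    obtain ⟨y, hy⟩ := h1
    obtain ⟨z, hz1, -⟩ := Scheme.exists_preimage_of_isPullback hp x y hy.symm
    exact ⟨z, hz1⟩

theorem isRegularScheme_hyp {R : Type} [CommRing R] [IsRegularRing R] {σ κ : Type} [Fintype σ]
    [Fintype κ] (g : κ → MvPolynomial σ R) :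
    IsRegularScheme (Spec (.of (MvPolynomial (κ ⊕ σ) R ⧸ Ideal.span {bigPoly g}))) :=
  isRegularScheme_iso (hypIso g).symm (isRegularScheme_ring1 g)

instance : IsRegularRing ℤ := inferInstance

end Pool.Agent.R904.CU
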