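import Pool.Agent.R904.CU.Main

/-!
# The reduction to the hypersurfaces `∑ yₖ gₖ = 1` with a shift of the degree
-/

set_option autoImplicit false

open CategoryTheory CategoryTheory.Limits AlgebraicGeometry MvPolynomial

namespace Pool.Agent.R904.CU

/-- two properties `P`, `Q` of schemes with the formal behaviour of finite generation of the groups
`K'_n` and `K'_{n+1}` -/
structure Shift {R : Type} [CommRing R] (Cl P Q : SchProp R) : Prop where
  empty : ∀ (Z : Scheme.{0}) (f : Z ⟶ Spec (.of R)), IsEmpty Z → P Z f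
  isoP : ∀ {X Y : Scheme.{0}} (f : X ⟶ Spec (.of R)) (g : Y ⟶ Spec (.of R)) (e : X ≅ Y),
    e.hom ≫ g = f → P Y g → P X f
  isoQ : ∀ {X Y : Scheme.{0}} (f : X ⟶ Spec (.of R)) (g : Y ⟶ Spec (.of R)) (e : X ≅ Y),
    e.hom ≫ g = f → Q Y g → Q X f
  glue : ∀ (X Z U : Scheme.{0}) (f : X ⟶ Spec (.of R)) (i : Z ⟶ X) (j : U ⟶ X), Cl X f →
    IsClosedImmersion i → IsOpenImmersion j → Set.range i = (Set.range j)ᶜ →
    P Z (i ≫ f) → P U (j ≫ f) → P X f
  sub : ∀ (X Z U : Scheme.{0}) (f : X ⟶ Spec (.of R)) (i : Z ⟶ X) (j : U ⟶ X), Cl X f →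
    IsClosedImmersion i → IsOpenImmersion j → Set.range i = (Set.range j)ᶜ →
    P X f → Q U (j ≫ f) → P Z (i ≫ f)
  desc : ∀ (N : ℕ) (E X : Scheme.{0}) (π : E ⟶ X) (f : X ⟶ Spec (.of R)), Cl X f →
    Cl E (π ≫ f) → IsAffineBundle N π → Q E (π ≫ f) → Q X f
  space : ∀ (σ : Type) [Fintype σ], P (Spec (.of (MvPolynomial σ R)))
    (Spec.map (CommRingCat.ofHom (algebraMap R (MvPolynomial σ R))))

section

variable {R : Type} [CommRing R] [IsNoetherianRing R] {Cl P Q : SchProp R}
  (hCl : Cls Cl) (h : Shift Cl P Q)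
  (hS : ∀ (σ κ : Type) [Fintype σ] [Fintype κ] (g : κ → MvPolynomial σ R),
    (∀ k, (g k).totalDegree ≤ 2) → Q _ (hyp (bigPoly g)))

include hCl in
theorem cl_openU {σ κ : Type} [Fintype σ] [Fintype κ] (g : κ → MvPolynomial σ R) :
    Cl (openU g)
      ((openU g).ι ≫ Spec.map (CommRingCat.ofHom (algebraMap R (MvPolynomial σ R)))) := by
  have hA : Cl (Spec (.of (MvPolynomial σ R)))
    (Spec.map (CommRingCat.ofHom (algebraMap R (MvPolynomial σ R)))) := hCl.affine _ inferInstance
  exact hCl.opn _ _ _ (openU g).ι inferInstance hA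

theorem proj_comm {σ κ : Type} [Fintype σ] [Fintype κ] (g : κ → MvPolynomial σ R) :
    proj g ≫ (openU g).ι ≫
      Spec.map (CommRingCat.ofHom (algebraMap R (MvPolynomial σ R))) =
      Spec.map (CommRingCat.ofHom (algebraMap R (Ring1 g))) := by
  rw [← Category.assoc, proj_ι]
  unfold proj0
  rw [← Spec.map_comp, ← CommRingCat.ofHom_comp]

include hCl in
theorem cl_bundle {σ κ : Type} [Fintype σ] [Fintype κ] (g : κ → MvPolynomial σ R) :
    Cl (Spec (.of (Ring1 g))) (proj g ≫ (openU g).ι ≫
      Spec.map (CommRingCat.ofHom (algebraMap R (MvPolynomial σ R)))) := by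
  rw [proj_comm]
  exact hCl.affine _ inferInstance

/-- the isomorphism of the hypersurface with the affine bundle -/
noncomputable def hypIso {σ κ : Type} [Fintype σ] [Fintype κ] (g : κ → MvPolynomial σ R) :
    (Spec (.of (Ring1 g)) : Scheme.{0}) ≅
      Spec (.of (MvPolynomial (κ ⊕ σ) R ⧸ Ideal.span {bigPoly g})) :=
  let e : (MvPolynomial (κ ⊕ σ) R ⧸ Ideal.span {bigPoly g}) ≃ₐ[R] Ring1 g :=
    Ideal.quotientEquivAlg _ _ (sumAlgEquiv R κ σ) (by
      rw [Ideal.map_span, Set.image_singleton]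
      congr 2
      exact (sumAlgEquiv_bigPoly g).symm)
  Scheme.Spec.mapIso e.toRingEquiv.toCommRingCatIso.op

theorem hypIso_hom {σ κ : Type} [Fintype σ] [Fintype κ] (g : κ → MvPolynomial σ R) :
    (hypIso g).hom ≫ hyp (bigPoly g) = Spec.map (CommRingCat.ofHom (algebraMap R (Ring1 g))) := by
  let e : (MvPolynomial (κ ⊕ σ) R ⧸ Ideal.span {bigPoly g}) ≃ₐ[R] Ring1 g :=
    Ideal.quotientEquivAlg _ _ (sumAlgEquiv R κ σ) (by
      rw [Ideal.map_span, Set.image_singleton]
      congr 2
      exact (sumAlgEquiv_bigPoly g).symm)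
  change Spec.map (CommRingCat.ofHom e.toRingEquiv.toRingHom) ≫ hyp (bigPoly g) = _
  unfold hyp
  rw [← Spec.map_comp, ← CommRingCat.ofHom_comp]
  congr 2
  exact e.toAlgHom.comp_algebraMap

include hCl h hS

/-- the complement of the zeros of quadratic polynomials -/
theorem s_open {σ κ : Type} [Fintype σ] [Fintype κ] (g : κ → MvPolynomial σ R)
    (hg : ∀ k, (g k).totalDegree ≤ 2) :
    Q (openU g) ((openU g).ι ≫ Spec.map (CommRingCat.ofHom (algebraMap R (MvPolynomial σ R)))) := by
  have h1 := hS σ κ g hg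
  refine h.desc _ _ _ (proj g) _ (cl_openU hCl g) (cl_bundle hCl g) (isAffineBundle_proj g) ?_
  rw [proj_comm]
  exact h.isoQ _ (hyp (bigPoly g)) (hypIso g) (hypIso_hom g) h1

/-- affine schemes of finite type -/
theorem s_affine (B : Type) [CommRing B] [Algebra R B] (hB : Algebra.FiniteType R B) :
    P (Spec (.of B)) (Spec.map (CommRingCat.ofHom (algebraMap R B))) := by
  obtain ⟨σ, κ, _, _, g, hg, ⟨e⟩⟩ := exists_quadratic R B
  have hA : Cl (Spec (.of (MvPolynomial σ R)))
    (Spec.map (CommRingCat.ofHom (algebraMap R (MvPolynomial σ R)))) := hCl.affine _ inferInstance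
  have h1 := s_open hCl h hS g hg
  have h4 := h.sub _ _ _ _ (closedZ g) (openU g).ι hA inferInstance inferInstance
    (range_closedZ g) (h.space σ) h1
  have h5 : closedZ g ≫ Spec.map (CommRingCat.ofHom (algebraMap R (MvPolynomial σ R))) =
      Spec.map (CommRingCat.ofHom (algebraMap R
        (MvPolynomial σ R ⧸ Ideal.span (Set.range g)))) := by
    unfold closedZ
    rw [← Spec.map_comp, ← CommRingCat.ofHom_comp]
  rw [h5] at h4
  refine h.isoP _ _ (Scheme.Spec.mapIso e.toRingEquiv.toCommRingCatIso.op) ?_ h4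
  change Spec.map (CommRingCat.ofHom e.toRingEquiv.toRingHom) ≫ _ = _
  rw [← Spec.map_comp, ← CommRingCat.ofHom_comp]
  congr 2
  exact e.toAlgHom.comp_algebraMap

theorem s_affine' (X : Scheme.{0}) [IsAffine X] (f : X ⟶ Spec (.of R)) (hf : Cl X f) : P X f := by
  have hft := (hCl.ft X f hf).1
  obtain ⟨φ, hφ⟩ := Spec.map_surjective (X.isoSpec.inv ≫ f)
  have hft2 : LocallyOfFiniteType (Spec.map φ) := by
    rw [hφ]
    infer_instance
  have hφ2 : φ.hom.FiniteType := HasRingHomProperty.Spec_iff.mp hft2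
  algebraize [φ.hom]
  have h1 := s_affine hCl h hS Γ(X, ⊤) ‹_›
  refine h.isoP f _ X.isoSpec ?_ h1
  have h3 : Spec.map (CommRingCat.ofHom (algebraMap R Γ(X, ⊤))) = X.isoSpec.inv ≫ f := hφ
  rw [h3, Iso.hom_inv_id_assoc]

/-- **The hypersurfaces `∑ yₖ gₖ = 1` suffice, with a shift.** -/
theorem s_all (X : Scheme.{0}) (f : X ⟶ Spec (.of R)) (hf : Cl X f) : P X f := by
  obtain ⟨hft, hqc⟩ := hCl.ft X f hf
  have hln : IsLocallyNoetherian X := LocallyOfFiniteType.isLocallyNoetherian f
  have hcs : CompactSpace X := QuasiCompact.compactSpace_of_compactSpace f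
  have hN : IsNoetherian X := { }
  have key : ∀ (C : TopologicalSpace.Closeds X) (Z : Scheme.{0}) (i : Z ⟶ X),
      IsClosedImmersion i → Set.range i = C → P Z (i ≫ f) := by
    intro C
    induction C using WellFoundedLT.induction with
    | _ C ih =>
      intro Z i hi hr
      by_cases hem : IsEmpty Z
      · exact h.empty Z _ hem
      · rw [not_isEmpty_iff] at hem
        obtain ⟨z⟩ := hem
        have hex : ∃ V : Z.Opens, IsAffineOpen V ∧ z ∈ V := by
          obtain ⟨_, ⟨V, hV, rfl⟩, hzV, -⟩ :=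
            Z.isBasis_affineOpens.exists_subset_of_mem_open (Set.mem_univ z) isOpen_univ
          exact ⟨V, hV, hzV⟩
        obtain ⟨V, hV, hzV⟩ := hex
        have hVaff : IsAffine V := hV
        let D : TopologicalSpace.Closeds Z := ⟨(V : Set Z)ᶜ, V.isOpen.isClosed_compl⟩
        let I := Scheme.IdealSheafData.vanishingIdeal D
        have hrI : Set.range I.subschemeι = (V : Set Z)ᶜ := by
          rw [Scheme.IdealSheafData.range_subschemeι]
          exact Scheme.IdealSheafData.coe_support_vanishingIdeal _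
        have hZ : Cl Z (i ≫ f) := hCl.closed _ _ _ _ hi hf
        have hcl : IsClosedImmersion (I.subschemeι ≫ i) := inferInstance
        let C' : TopologicalSpace.Closeds X := ⟨Set.range (I.subschemeι ≫ i),
          hcl.isClosedEmbedding.isClosed_range⟩
        have hlt : C' < C := by
          rw [SetLike.lt_iff_le_and_exists]
          constructor
          · rintro _ ⟨w, rfl⟩
            have : (I.subschemeι ≫ i) w ∈ Set.range i := ⟨I.subschemeι w, rfl⟩
            rw [hr] at this
            exact this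
          · refine ⟨i z, ?_, ?_⟩
            · have : i z ∈ Set.range i := ⟨z, rfl⟩
              rw [hr] at this
              exact this
            · rintro ⟨w, hw⟩
              have h3 : I.subschemeι w = z := hi.isClosedEmbedding.injective hw
              have h4 : z ∈ Set.range I.subschemeι := ⟨w, h3⟩
              rw [hrI] at h4
              exact h4 hzV
        have hW := ih C' hlt I.subscheme (I.subschemeι ≫ i) hcl rfl
        have hV' : P V (V.ι ≫ i ≫ f) :=
          s_affine' hCl h hS V _ (hCl.opn _ _ _ _ inferInstance hZ)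
        rw [Category.assoc] at hW
        exact h.glue Z I.subscheme V (i ≫ f) I.subschemeι V.ι hZ inferInstance inferInstance (by
          rw [hrI, Scheme.Opens.range_ι]) hW hV'
  have h5 := key ⊤ X (𝟙 X) inferInstance (by
    have : Set.range (𝟙 X : X ⟶ X) = Set.univ := Set.range_eq_univ.2 (𝟙 X : X ⟶ X).surjective
    rw [this]
    rfl)
  rwa [Category.id_comp] at h5

end

end Pool.Agent.R904.CU
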