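import Pool.Agent.R904.CU.Main

/-!
# The conjecture TB for smooth affine cubic hypersurfaces implies it for all varieties

Let `k` be a finite field and `P` a property of separated schemes of finite type over `k` such that, like
Jannsen's `TB`, `P` satisfies two-out-of-three for closed subschemes and their complements and is
invariant under affine bundles. If `P` holds for all smooth hypersurfaces of degree at most three in the
affine spaces over `k`, then it holds for all separated schemes of finite type over `k`.
-/

set_option autoImplicit false

open Pool.Agent.R904.CU AlgebraicGeometry

namespace Pool.Agent.Results.MP_2ce3e7_ag.CubicHypersurfaces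

/-- Let `k` be a finite field and `P` a property of separated schemes of finite type over `k` which
satisfies two-out-of-three for closed subschemes and their complements and is invariant under affine
bundles. If `P` holds for all smooth hypersurfaces of degree at most three in affine spaces over `k`,
then `P` holds for all separated schemes of finite type over `k`. -/
theorem result (k : Type) [Field k] [Finite k] (P : SchProp k)
    (h2 : TwoOfThree (SepFinType k) P) (hb : BundleInvariant (SepFinType k) P)
    (hS : ∀ (σ : Type) [Fintype σ] (F : MvPolynomial σ k), IsSmoothCubic F → P _ (hyp F)) :
    ∀ (X : Scheme.{0}) (f : X ⟶ Spec (.of k)), SepFinType k X f → P X f :=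
  fun X f hf => p_all (cls_sepFinType k) h2 hb hS X f hf

end Pool.Agent.Results.MP_2ce3e7_ag.CubicHypersurfaces
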